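import Mathlib

/-! A triple covering of the integers by residue classes with pairwise coprime odd divisors of
`2 ^ d - 1`. -/

set_option autoImplicit false

namespace Pool.Agent.KS6_88.TC

/-- triples `(d, a, p)`: the class `a mod d` and an odd number `p > 1` dividing `2 ^ d - 1` -/
def L : List (ℕ × ℕ × ℕ) := [
(2, 1, 3), (3, 1, 7), (4, 2, 5), (5, 3, 31), (7, 5, 127), (8, 4, 17), (9, 2, 73), (10, 4, 11),
  (12, 3, 13), (14, 8, 43), (15, 11, 151), (16, 8, 257), (18, 17, 19), (20, 9, 41), (21, 6, 337),
  (24, 21, 241), (25, 2, 601), (25, 22, 1801), (28, 16, 29), (28, 4, 113), (30, 0, 331),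
  (32, 0, 65537), (35, 10, 71), (35, 0, 122921), (36, 5, 37), (36, 23, 109), (40, 39, 61681),
  (42, 0, 5419), (45, 6, 631), (45, 36, 23311), (48, 33, 97), (48, 9, 673), (50, 7, 251),
  (50, 37, 4051), (56, 2, 15790321), (60, 31, 61), (60, 1, 1321), (63, 62, 92737),
  (63, 41, 649657), (70, 15, 281), (70, 25, 86171), (72, 14, 433), (72, 62, 38737),
  (75, 42, 100801), (75, 67, 10567201), (80, 59, 4278255361), (84, 18, 1429), (84, 66, 14449),
  (90, 66, 18837001), (96, 48, 193), (96, 80, 22253377), (100, 82, 101), (100, 62, 8101),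
  (100, 32, 268501), (105, 55, 29191), (105, 65, 106681), (105, 100, 152041), (112, 80, 5153),
  (112, 108, 54410972897), (120, 46, 4562284561), (126, 14, 77158673929), (140, 130, 7416361),
  (144, 26, 577), (144, 98, 487824887233), (150, 17, 1133836730401), (160, 19, 414721),
  (160, 99, 44479210368001), (168, 30, 3361), (168, 112, 88959882481), (175, 160, 39551),
  (180, 80, 181), (180, 21, 54001), (180, 111, 29247661), (200, 112, 401), (200, 12, 340801),
  (200, 192, 2787601), (200, 92, 3173389601), (210, 135, 211), (210, 76, 664441),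
  (210, 196, 1564921), (224, 164, 449), (224, 136, 2689), (224, 24, 183076097),
  (224, 52, 358429848460993), (225, 95, 115201), (225, 50, 617401), (225, 140, 1348206751),
  (225, 5, 13861369826299351), (240, 16, 394783681), (252, 224, 4796135163359699664961),
  (280, 186, 84179842077657862011867889681), (288, 122, 1153), (288, 266, 6337),
  (288, 194, 10843427231260240777921), (300, 242, 1201), (300, 220, 63901), (300, 40, 13334701),
  (315, 20, 870031), (315, 136, 983431), (315, 241, 29728307155963706810228435378401),
  (336, 160, 2017), (336, 290, 39433635489971609910549793), (350, 60, 1051), (350, 110, 110251),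
  (350, 260, 11829821046098935376620666201), (360, 346, 79247505326224968612036218881),
  (400, 0, 1601), (400, 80, 25601), (420, 242, 421), (420, 74, 153063370478070000652274761),
  (480, 338, 23041)]

/-- the class of `t` contains `x` -/
def good (x : ℕ) (t : ℕ × ℕ × ℕ) : Bool := Nat.beq (x % t.1) t.2.1

def hit (M r : ℕ) (t : ℕ × ℕ × ℕ) : Bool := Nat.beq (Nat.gcd t.1 M) t.1 && Nat.beq (r % t.1) t.2.1

def keep (M r : ℕ) (t : ℕ × ℕ × ℕ) : Bool :=
  !(Nat.beq (Nat.gcd t.1 M) t.1) && Nat.beq (r % Nat.gcd t.1 M) (t.2.1 % Nat.gcd t.1 M)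

/-- search tree: every `x` with `x % m = r` is in at least `need` of the classes in `C` -/
def chk : List ℕ → ℕ → ℕ → ℕ → List (ℕ × ℕ × ℕ) → Bool
  | [], _, _, need, _ => Nat.beq need 0
  | q :: os, m, r, need, C => (List.range q).all fun j =>
      Nat.ble need (C.countP (hit (m * q) (r + m * j))) ||
        chk os (m * q) (r + m * j) (need - C.countP (hit (m * q) (r + m * j)))
          (C.filter (keep (m * q) (r + m * j)))

theorem good_of_hit {M r x : ℕ} (hx : x % M = r) {t : ℕ × ℕ × ℕ} (h : hit M r t = true) :
    good x t = true := by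
  unfold hit at h
  rw [Bool.and_eq_true] at h
  have h1 := Nat.eq_of_beq_eq_true h.1
  have h2 := Nat.eq_of_beq_eq_true h.2
  have hd : t.1 ∣ M := by rw [← h1]; exact Nat.gcd_dvd_right _ _
  unfold good
  rw [← Nat.mod_mod_of_dvd x hd, hx, h2]
  exact Nat.beq_refl _

theorem count_le {M r x : ℕ} (hx : x % M = r) (C : List (ℕ × ℕ × ℕ)) :
    C.countP (hit M r) + (C.filter (keep M r)).countP (good x) ≤ C.countP (good x) := by
  induction C with
  | nil => simp
  | cons t C ih =>
    rw [List.countP_cons, List.countP_cons, List.filter_cons]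
    by_cases h1 : hit M r t = true
    · have hg := good_of_hit hx h1
      have hk : keep M r t = false := by
        unfold hit at h1
        rw [Bool.and_eq_true] at h1
        unfold keep
        rw [h1.1]; rfl
      rw [h1, hg, hk]
      simp only [if_true, Bool.false_eq_true, if_false]
      omega
    · rw [Bool.not_eq_true] at h1
      rw [h1]
      by_cases h2 : keep M r t = true
      · rw [h2]
        simp only [if_true, Bool.false_eq_true, if_false, List.countP_cons]
        omega
      · rw [Bool.not_eq_true] at h2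
        rw [h2]
        simp only [Bool.false_eq_true, if_false]
        omega

theorem chk_spec : ∀ (os : List ℕ) (m r need : ℕ) (C : List (ℕ × ℕ × ℕ)), (∀ q ∈ os, 0 < q) →
    chk os m r need C = true → ∀ x : ℕ, x % m = r → need ≤ C.countP (good x) := by
  intro os
  induction os with
  | nil =>
    intro m r need C _ h x _
    unfold chk at h
    rw [Nat.eq_of_beq_eq_true h]
    exact Nat.zero_le _
  | cons q os ih =>
    intro m r need C hos h x hx
    have hq : 0 < q := hos q (by simp)
    unfold chk at h
    rw [List.all_eq_true] at h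
    have h1 := h (x / m % q) (List.mem_range.2 (Nat.mod_lt _ hq))
    have hx' : x % (m * q) = r + m * (x / m % q) := by
      rw [Nat.mod_mul, hx]
    rw [Bool.or_eq_true] at h1
    have hc := count_le hx' C
    rcases h1 with h2 | h2
    · have := Nat.le_of_ble_eq_true h2
      omega
    · have := ih _ _ _ _ (fun q hq => hos q (by simp [hq])) h2 x hx'
      omega

def order : List ℕ := [2, 2, 5, 3, 2, 7, 3, 5, 2, 2]

theorem chk_true : chk order 1 0 3 L = true := by decide +kernel

theorem exists_three (x : ℕ) : ∃ s : List (ℕ × ℕ × ℕ), s.Sublist L ∧ s.length = 3 ∧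
    ∀ t ∈ s, x % t.1 = t.2.1 := by
  have h := chk_spec order 1 0 3 L (by decide) chk_true x (Nat.mod_one x)
  rw [List.countP_eq_length_filter] at h
  refine ⟨(L.filter (good x)).take 3, (List.take_sublist _ _).trans List.filter_sublist, ?_, ?_⟩
  · rw [List.length_take]; omega
  · intro t ht
    have h1 := (List.take_sublist 3 _).subset ht
    have h2 := (List.mem_filter.1 h1).2
    exact Nat.eq_of_beq_eq_true h2

theorem basic : ∀ t ∈ L, 2 ≤ t.2.2 ∧ t.2.2 % 2 = 1 ∧ 2 ^ t.1 % t.2.2 = 1 := by
  decide +kernel

theorem coprime_L : L.Pairwise (fun s t => Nat.Coprime s.2.2 t.2.2) := by decide +kernel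

end Pool.Agent.KS6_88.TC
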